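import Pool.Agent.H27.L1.H76.GU.Targets

/-!
Board gu, row KAP: a weight for the unipotent group (fractional parts of the projection coordinates).
-/

namespace Pool.Agent.H27.L1.H13.GU

open MeasureTheory Pool.Agent.H27.L1.H34.GM Pool.Agent.H27.L1.H34.GZ Pool.Agent.H27.L1.H34.GU Pool.Agent.H27.L1.H76.GU
open scoped Matrix

/-- projection on the first `k` coordinates -/
noncomputable def kpP (m k : ℕ) : Mat m := Matrix.diagonal fun i => if (i : ℕ) < k then 1 else 0

/-- the Gram matrix of the first `k` rows, completed by the identity -/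
noncomputable def kpG {m : ℕ} (k : ℕ) (Z : Mat m) : Mat m :=
  kpP m k * (Z * Z.transpose) * kpP m k + (1 - kpP m k)

/-- the projection coordinates -/
noncomputable def kpT {m : ℕ} (k : ℕ) (Z : Mat m) : Mat m :=
  (1 - kpP m k) * (Z * Z.transpose) * kpP m k * (kpG k Z)⁻¹

lemma kpP_sq (m k : ℕ) : kpP m k * kpP m k = kpP m k := by
  rw [kpP, Matrix.diagonal_mul_diagonal]
  congr 1
  funext i
  split_ifs <;> simp

lemma kpP_tr (m k : ℕ) : (kpP m k).transpose = kpP m k := by
  rw [kpP, Matrix.diagonal_transpose]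

lemma kpP_mul_cR {m k : ℕ} {n : ZM m} (hn : InN k n) : kpP m k * cR n = kpP m k := by
  ext i j
  rw [kpP, Matrix.diagonal_mul]
  by_cases hi : (i : ℕ) < k
  · have h := hn i j (fun h => absurd h.2 (by omega))
    simp only [cR, Matrix.map_apply, h, if_pos hi, one_mul]
    by_cases hij : i = j
    · subst hij
      simp [hi]
    · simp [hij]
  · by_cases hij : i = j
    · subst hij
      simp [hi]
    · simp [hi, hij]

lemma cR_sub_one_mul {m k : ℕ} {n : ZM m} (hn : InN k n) :
    (cR n - 1) * kpP m k = cR n - 1 := by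
  ext i j
  rw [kpP, Matrix.mul_diagonal]
  by_cases hj : (j : ℕ) < k
  · simp [hj]
  · have h := hn i j (fun h => absurd h.1 hj)
    have h0 : (cR n - 1 : Mat m) i j = 0 := by
      rw [Matrix.sub_apply, cR, Matrix.map_apply, h, Matrix.one_apply, Matrix.one_apply]
      split_ifs <;> simp
    rw [h0, zero_mul]

lemma kpG_mul {m k : ℕ} {n : ZM m} (hn : InN k n) (Z : Mat m) : kpG k (cR n * Z) = kpG k Z := by
  have h1 := kpP_mul_cR hn
  have h2 : (cR n).transpose * kpP m k = kpP m k := by
    have := congrArg Matrix.transpose h1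
    rwa [Matrix.transpose_mul, kpP_tr] at this
  rw [kpG, kpG]
  congr 1
  rw [Matrix.transpose_mul]
  calc kpP m k * (cR n * Z * (Z.transpose * (cR n).transpose)) * kpP m k
      = (kpP m k * cR n) * (Z * Z.transpose) * ((cR n).transpose * kpP m k) := by
        simp only [Matrix.mul_assoc]
    _ = kpP m k * (Z * Z.transpose) * kpP m k := by rw [h1, h2]

lemma kpP_mul_kpG {m : ℕ} (k : ℕ) (Z : Mat m) :
    kpP m k * kpG k Z = kpP m k * (Z * Z.transpose) * kpP m k := by
  rw [kpG, Matrix.mul_add, Matrix.mul_sub, kpP_sq, Matrix.mul_one, sub_self, add_zero,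
    ← Matrix.mul_assoc, ← Matrix.mul_assoc, kpP_sq]

lemma kpG_det {m : ℕ} (k : ℕ) (Z : Mat m) (hZ : Z.det ≠ 0) : (kpG k Z).det ≠ 0 := by
  intro h0
  obtain ⟨x, hx0, hx⟩ := Matrix.exists_mulVec_eq_zero_iff.2 h0
  apply hx0
  have h1 : (1 - kpP m k) * kpG k Z = 1 - kpP m k := by
    have h2 : (1 - kpP m k) * kpP m k = 0 := by
      rw [Matrix.sub_mul, Matrix.one_mul, kpP_sq, sub_self]
    rw [kpG, Matrix.mul_add, ← Matrix.mul_assoc, ← Matrix.mul_assoc, h2, Matrix.zero_mul,
      Matrix.zero_mul, zero_add, Matrix.mul_sub, h2, Matrix.mul_one, sub_zero]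
  have h3 : kpP m k *ᵥ x = x := by
    have h4 : (1 - kpP m k) *ᵥ x = 0 := by
      rw [← h1, ← Matrix.mulVec_mulVec, hx, Matrix.mulVec_zero]
    rw [Matrix.sub_mulVec, Matrix.one_mulVec, sub_eq_zero] at h4
    exact h4.symm
  have h5 : (kpP m k * (Z * Z.transpose) * kpP m k) *ᵥ x = 0 := by
    rw [← kpP_mul_kpG, ← Matrix.mulVec_mulVec, hx, Matrix.mulVec_zero]
  have h6 : kpP m k *ᵥ (Z *ᵥ (Z.transpose *ᵥ x)) = 0 := by
    rw [← Matrix.mulVec_mulVec, h3] at h5
    rw [Matrix.mulVec_mulVec, Matrix.mulVec_mulVec]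
    rwa [← Matrix.mul_assoc] at h5
  have h7 : (Z.transpose *ᵥ x) ⬝ᵥ (Z.transpose *ᵥ x) = 0 := by
    have h8 : x ⬝ᵥ (kpP m k *ᵥ (Z *ᵥ (Z.transpose *ᵥ x))) = 0 := by rw [h6, dotProduct_zero]
    rw [Matrix.dotProduct_mulVec, ← Matrix.mulVec_transpose, kpP_tr, h3,
      Matrix.dotProduct_mulVec, ← Matrix.mulVec_transpose] at h8
    exact h8
  have h9 : Z.transpose *ᵥ x = 0 := dotProduct_self_eq_zero.1 h7
  by_contra hne
  apply hZ
  rw [← Matrix.det_transpose]
  exact Matrix.exists_mulVec_eq_zero_iff.1 ⟨x, hne, h9⟩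

lemma kpT_mul {m k : ℕ} {n : ZM m} (hn : InN k n) (Z : Mat m) (hZ : Z.det ≠ 0) :
    kpT k (cR n * Z) = kpT k Z + (cR n - 1) := by
  have h1 := kpP_mul_cR hn
  have h2 : (cR n).transpose * kpP m k = kpP m k := by
    have := congrArg Matrix.transpose h1
    rwa [Matrix.transpose_mul, kpP_tr] at this
  have h3 := cR_sub_one_mul hn
  have hu : IsUnit (kpG k Z).det := (kpG_det k Z hZ).isUnit
  have h4 : (1 - kpP m k) * cR n = (1 - kpP m k) + (cR n - 1) := by
    rw [Matrix.sub_mul, Matrix.one_mul, h1]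
    abel
  rw [kpT, kpT, kpG_mul hn, Matrix.transpose_mul]
  calc (1 - kpP m k) * (cR n * Z * (Z.transpose * (cR n).transpose)) * kpP m k * (kpG k Z)⁻¹
      = ((1 - kpP m k) * cR n) * (Z * Z.transpose) * ((cR n).transpose * kpP m k) *
          (kpG k Z)⁻¹ := by simp only [Matrix.mul_assoc]
    _ = (1 - kpP m k) * (Z * Z.transpose) * kpP m k * (kpG k Z)⁻¹ +
          (cR n - 1) * (Z * Z.transpose) * kpP m k * (kpG k Z)⁻¹ := by
        rw [h4, h2]
        simp only [Matrix.add_mul]
    _ = (1 - kpP m k) * (Z * Z.transpose) * kpP m k * (kpG k Z)⁻¹ + (cR n - 1) := by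
        congr 1
        calc (cR n - 1) * (Z * Z.transpose) * kpP m k * (kpG k Z)⁻¹
            = ((cR n - 1) * kpP m k) * (Z * Z.transpose) * kpP m k * (kpG k Z)⁻¹ := by rw [h3]
          _ = (cR n - 1) * (kpP m k * (Z * Z.transpose) * kpP m k) * (kpG k Z)⁻¹ := by
              simp only [Matrix.mul_assoc]
          _ = (cR n - 1) * kpP m k := by
              rw [← kpP_mul_kpG, ← Matrix.mul_assoc, Matrix.mul_assoc _ (kpG k Z),
                Matrix.mul_nonsing_inv _ hu, Matrix.mul_one]
          _ = cR n - 1 := h3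

lemma kpT_meas {m : ℕ} (k : ℕ) (i j : Fin m) : Measurable fun z : V m => kpT k (mt z) i j := by
  have hc : Continuous fun z : V m => (mt z : Mat m) := by
    exact continuous_id
  have hG : Continuous fun z : V m => kpG k (mt z) := by
    unfold kpG
    exact ((continuous_const.matrix_mul (hc.matrix_mul hc.matrix_transpose)).matrix_mul
      continuous_const).add continuous_const
  have hA : Continuous fun z : V m =>
      (1 - kpP m k) * (mt z * (mt z).transpose) * kpP m k :=
    (continuous_const.matrix_mul (hc.matrix_mul hc.matrix_transpose)).matrix_mul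
      continuous_const
  have hd : Measurable fun z : V m => ((kpG k (mt z)).det)⁻¹ := (hG.matrix_det.measurable).inv
  have he : (fun z : V m => kpT k (mt z) i j) = fun z : V m =>
      ∑ l, ((1 - kpP m k) * ((mt z : Mat m) * (mt z : Mat m).transpose) * kpP m k : Mat m) i l *
        (((kpG k (mt z)).det)⁻¹ * (kpG k (mt z)).adjugate l j) := by
    funext z
    rw [kpT, Matrix.mul_apply]
    refine Finset.sum_congr rfl fun l _ => ?_
    rw [Matrix.inv_def, Matrix.smul_apply, Ring.inverse_eq_inv', smul_eq_mul]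
  rw [he]
  refine Finset.measurable_sum _ fun l _ => ?_
  exact (hA.matrix_elem i l).measurable.mul (hd.mul (hG.matrix_adjugate.matrix_elem l j).measurable)

/-- the set of points with projection coordinates in `[0, 1)` -/
def kpS (m k : ℕ) : Set (V m) :=
  {z | ∀ i j : Fin m, ((j : ℕ) < k ∧ k ≤ (i : ℕ)) → 0 ≤ kpT k (mt z) i j ∧ kpT k (mt z) i j < 1}

lemma kpS_meas (m k : ℕ) : MeasurableSet (kpS m k) := by
  have h : kpS m k = ⋂ i : Fin m, ⋂ j : Fin m,
      {z | ((j : ℕ) < k ∧ k ≤ (i : ℕ)) → 0 ≤ kpT k (mt z) i j ∧ kpT k (mt z) i j < 1} := by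
    ext z
    simp only [kpS, Set.mem_ofPred_eq, Set.mem_iInter]
  rw [h]
  refine MeasurableSet.iInter fun i => MeasurableSet.iInter fun j => ?_
  by_cases hij : (j : ℕ) < k ∧ k ≤ (i : ℕ)
  · have h2 : {z : V m | ((j : ℕ) < k ∧ k ≤ (i : ℕ)) →
        0 ≤ kpT k (mt z) i j ∧ kpT k (mt z) i j < 1} =
        {z | 0 ≤ kpT k (mt z) i j} ∩ {z | kpT k (mt z) i j < 1} := by
      ext z
      simp only [Set.mem_ofPred_eq, Set.mem_inter_iff]
      exact ⟨fun h => h hij, fun h _ => h⟩
    rw [h2]
    exact (measurableSet_le measurable_const (kpT_meas k i j)).inter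
      (measurableSet_lt (kpT_meas k i j) measurable_const)
  · have h2 : {z : V m | ((j : ℕ) < k ∧ k ≤ (i : ℕ)) →
        0 ≤ kpT k (mt z) i j ∧ kpT k (mt z) i j < 1} = Set.univ := by
      ext z
      simp only [Set.mem_ofPred_eq, Set.mem_univ, iff_true]
      exact fun h => absurd h hij
    rw [h2]
    exact MeasurableSet.univ

theorem pf_KAP : T_KAP := by
  intro m k _
  classical
  refine ⟨(kpS m k).indicator 1, (measurable_one).indicator (kpS_meas m k), ?_, ?_⟩
  · intro z
    by_cases hz : z ∈ kpS m k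
    · rw [Set.indicator_of_mem hz]
      exact le_refl _
    · rw [Set.indicator_of_notMem hz]
      exact zero_le_one
  · intro z hz
    have hT : ∀ n : ZM m, InN k n → ∀ i j : Fin m,
        kpT k (mt (lm (cR n) z)) i j = kpT k (mt z) i j + ((n i j : ℝ) - (1 : Mat m) i j) := by
      intro n hn i j
      have h1 : (mt (lm (cR n) z) : Mat m) = cR n * mt z := by
        ext a b
        rfl
      rw [h1, kpT_mul hn _ hz, Matrix.add_apply, Matrix.sub_apply]
      rfl
    have hmem : ∀ n : ZM m, InN k n → (lm (cR n) z ∈ kpS m k ↔ ∀ i j : Fin m,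
        ((j : ℕ) < k ∧ k ≤ (i : ℕ)) → n i j = -⌊kpT k (mt z) i j⌋) := by
      intro n hn
      constructor
      · intro h i j hij
        have h1 := h i j hij
        rw [hT n hn, Matrix.one_apply_ne (by intro e; subst e; omega), sub_zero] at h1
        have h2 : ⌊kpT k (mt z) i j⌋ = -n i j := by
          rw [Int.floor_eq_iff]
          push_cast
          constructor <;> linarith [h1.1, h1.2]
        omega
      · intro h i j hij
        rw [hT n hn, Matrix.one_apply_ne (by intro e; subst e; omega), sub_zero, h i j hij]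
        push_cast
        constructor
        · linarith [Int.floor_le (kpT k (mt z) i j)]
        · linarith [Int.lt_floor_add_one (kpT k (mt z) i j)]
    let n0 : ZM m := Matrix.of fun i j => if (j : ℕ) < k ∧ k ≤ (i : ℕ) then
      -⌊kpT k (mt z) i j⌋ else (1 : ZM m) i j
    have hn0 : InN k n0 := by
      intro i j hij
      simp only [n0, Matrix.of_apply, if_neg hij]
    rw [tsum_eq_single (⟨n0, hn0⟩ : {n : ZM m // InN k n})]
    · rw [Set.indicator_of_mem]
      · rfl
      · rw [hmem n0 hn0]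
        intro i j hij
        simp only [n0, Matrix.of_apply, if_pos hij]
    · intro b hb
      rw [Set.indicator_of_notMem]
      rw [hmem b.1 b.2]
      intro h
      apply hb
      apply Subtype.ext
      ext i j
      by_cases hij : (j : ℕ) < k ∧ k ≤ (i : ℕ)
      · rw [h i j hij]
        simp only [n0, Matrix.of_apply, if_pos hij]
      · rw [b.2 i j hij]
        simp only [n0, Matrix.of_apply, if_neg hij]

end Pool.Agent.H27.L1.H13.GU
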